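import Pool.Agent.Lib.MP_5de024_nt.S.CertX.Fin

/-!
# certificates: assembly (project AB3, piece CERT)
-/

set_option autoImplicit false
set_option linter.unusedSectionVars false

namespace Pool.Agent.AB3

open Pool.Agent.AB Polynomial

/-- `Good` in terms of the functor -/
def GoodR {k R H : Type} [Field k] [CommRing R] [Algebra k[X] R] [Group H] (C : Cov k R H)
    (n P : ℕ) (F : Type) [Field F] [Algebra k F] (β : F) : Prop :=
  ∃ u : Bs (evR k F (gR F P β β⁻¹)) R, u ≠ 0 ∧ Cert n u ∧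
    (∃ v : F[X], (∏ᶠ h : H, Bs.act (evR k F (gR F P β β⁻¹)) C.act h u) =
      algebraMap F[X] (Bs (evR k F (gR F P β β⁻¹)) R) v ^ n) ∧
    ∀ sh : {a : k // a ^ P = a} → (Bs (evR k F (gR F P β β⁻¹)) R →+*
        Bs (evR k F (gR F P β β⁻¹)) R),
      (∀ a : {a : k // a ^ P = a}, IsShR (gR F P β β⁻¹) (algebraMap k F (a : k) / β) (sh a)) →
      ∀ (E : H → {a : k // a ^ P = a} → ℕ) (c : F) (w : Bs (evR k F (gR F P β β⁻¹)) R), c ≠ 0 →
        prR C (gR F P β β⁻¹) sh E u =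
          algebraMap F[X] (Bs (evR k F (gR F P β β⁻¹)) R) (Polynomial.C c) * w ^ n →
        ∀ a h h', E h a ≡ E h' a [MOD n]

theorem goodR_iff {k R H : Type} [Field k] [CommRing R] [Algebra k[X] R] [Group H]
    (C : Cov k R H) (n P : ℕ) (F : Type) [Field F] [Algebra k F] (β : F) :
    Good C n P F β ↔ GoodR C n P F β := Iff.rfl

/-- the element of the family over `D` is good for all specialisations -/
theorem cert_fin (p : ℕ) [Fact p.Prime] {k R H : Type} [Field k] [CharP k p] [CommRing R]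
    [Algebra k[X] R] [Group H] [Finite H] (C : Cov k R H) (n r : ℕ) (hn0 : 0 < n)
    (hNL : NL p k R) (hr : Nat.card {a : k // a ^ p ^ (r + 1) = a} = p ^ (r + 1))
    {N : ℕ} (bb : Module.Basis (Fin N) k[X] R)
    (D : Type) [CommRing D] [Algebra k D] (b b' : D) (hbb : b * b' = 1)
    (uD a0 a1 c0 c1 d0 d1 : Bs (evR k D (gR D (p ^ (r + 1)) b b')) R)
    (e1 : a0 ^ n = uD * c0) (e2 : a1 ^ n = uD * c1) (e3 : d0 * c0 + d1 * c1 = 1) (i0 : Fin N)
    (j0 : ℕ) (κ' : D)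
    (hκ : ((Bs.basis (evR k D (gR D (p ^ (r + 1)) b b')) bb).repr uD i0).coeff j0 * κ' = 1)
    (v : D[X]) (hv : (∏ᶠ h : H, Bs.act (evR k D (gR D (p ^ (r + 1)) b b')) C.act h uD) =
      algebraMap D[X] (Bs (evR k D (gR D (p ^ (r + 1)) b b')) R) v ^ n)
    (F : Type) [Field F] [Algebra k F] (φ : D →ₐ[k] F)
    (hgF : (gR D (p ^ (r + 1)) b b').map (φ : D →+* F) = gR F (p ^ (r + 1)) (φ b) (φ b)⁻¹)
    (hIII : ∀ shD : {a : k // a ^ p ^ (r + 1) = a} →
        (Bs (evR k D (gR D (p ^ (r + 1)) b b')) R →+* Bs (evR k D (gR D (p ^ (r + 1)) b b')) R),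
      (∀ a : {a : k // a ^ p ^ (r + 1) = a},
        IsShR (gR D (p ^ (r + 1)) b b') (algebraMap k D (a : k) * b') (shD a)) →
      ∀ E : H → {a : k // a ^ p ^ (r + 1) = a} → Fin n, (∃ a h h', E h a ≠ E h' a) →
      ∀ (c : F) (w : Bs (evR k F (gR F (p ^ (r + 1)) (φ b) (φ b)⁻¹)) R), c ≠ 0 →
        fmp φ _ _ hgF (prR C (gR D (p ^ (r + 1)) b b') shD (fun h a => (E h a : ℕ)) uD) ≠
          algebraMap F[X] (Bs (evR k F (gR F (p ^ (r + 1)) (φ b) (φ b)⁻¹)) R)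
          (Polynomial.C c) * w ^ n) :
    GoodR C n (p ^ (r + 1)) F (φ b) := by
  classical
  have hp : p.Prime := Fact.out
  have hJ : Finite {a : k // a ^ p ^ (r + 1) = a} :=
    Nat.finite_of_card_ne_zero (by rw [hr]; exact (pow_pos hp.pos _).ne')
  have hφ : φ b * φ b' = 1 := by rw [← map_mul, hbb, map_one]
  have hβ : φ b ≠ 0 := left_ne_zero_of_mul_eq_one hφ
  have hinv : (φ b)⁻¹ = φ b' := inv_eq_of_mul_eq_one_right hφ
  have hdom : IsDomain (Bs (evR k F (gR F (p ^ (r + 1)) (φ b) (φ b)⁻¹)) R) :=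
    fam_gb_domain p C hNL (r + 1) (Nat.succ_pos r) hr (φ b) hβ
  have hic : IsIntegrallyClosed (Bs (evR k F (gR F (p ^ (r + 1)) (φ b) (φ b)⁻¹)) R) :=
    bs_intClosed C (evR k F (gR F (p ^ (r + 1)) (φ b) (φ b)⁻¹))
  have hu : fmp φ _ _ hgF uD ≠ 0 := by
    intro h
    have h1 := fmp_repr bb φ _ _ hgF uD i0
    rw [h, map_zero, Finsupp.zero_apply] at h1
    have h2 := congrArg (fun q => Polynomial.coeff q j0) h1
    simp only [coeff_zero, coeff_map] at h2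
    have h3 := congrArg φ hκ
    rw [map_mul, map_one] at h3
    have h4 : φ (((Bs.basis (evR k D (gR D (p ^ (r + 1)) b b')) bb).repr uD i0).coeff j0) = 0 :=
      h2.symm
    rw [h4, zero_mul] at h3
    exact zero_ne_one h3
  refine ⟨fmp φ _ _ hgF uD, hu, ⟨fmp φ _ _ hgF a0, fmp φ _ _ hgF a1, fmp φ _ _ hgF c0,
    fmp φ _ _ hgF c1, fmp φ _ _ hgF d0, fmp φ _ _ hgF d1, ?_, ?_, ?_⟩, ⟨v.map (φ : D →+* F), ?_⟩,
    ?_⟩
  · rw [← map_pow, e1, map_mul]
  · rw [← map_pow, e2, map_mul]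
  · rw [← map_mul, ← map_mul, ← map_add, e3, map_one]
  · have h1 := congrArg (fmp φ _ _ hgF) hv
    rw [map_pow, fmp_alg] at h1
    rw [← h1]
    have _ := Fintype.ofFinite H
    rw [finprod_eq_prod_of_fintype, finprod_eq_prod_of_fintype, map_prod]
    apply Finset.prod_congr rfl
    intro h _
    rw [fmp_act]
  intro sh hsh E c w hc heq
  have hshD : ∀ a : {a : k // a ^ p ^ (r + 1) = a},
      ∃ s : Bs (evR k D (gR D (p ^ (r + 1)) b b')) R →+*
        Bs (evR k D (gR D (p ^ (r + 1)) b b')) R,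
        IsShR (gR D (p ^ (r + 1)) b b') (algebraMap k D (a : k) * b') s := by
    intro a
    exact shR_exists p (r + 1) b b' (algebraMap k D (a : k)) hbb (by rw [← map_pow, a.2])
  choose shD hshD using hshD
  have hcomp : ∀ a z, fmp φ _ _ hgF (shD a z) = sh a (fmp φ _ _ hgF z) := by
    intro a z
    refine shR_map φ _ _ hgF (algebraMap k D (a : k) * b') (algebraMap k F (a : k) / φ b) ?_
      (shD a) (hshD a) (sh a) (hsh a) z
    rw [map_mul, AlgHom.commutes, div_eq_mul_inv, hinv]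
  -- reduction modulo `n`
  obtain ⟨E1, hE1⟩ : ∃ E1 : H → {a : k // a ^ p ^ (r + 1) = a} → Fin n,
      ∀ h a, (E1 h a : ℕ) = E h a % n := ⟨fun h a => ⟨E h a % n, Nat.mod_lt _ hn0⟩,
        fun h a => rfl⟩
  have hEq : E = fun h a => (E1 h a : ℕ) + n * (E h a / n) := by
    funext h a
    rw [hE1, Nat.mod_add_div]
  obtain ⟨y, hy⟩ : ∃ y, y = prR C (gR F (p ^ (r + 1)) (φ b) (φ b)⁻¹) sh (fun h a => E h a / n)
    (fmp φ _ _ hgF uD) := ⟨_, rfl⟩
  have hy0 : y ≠ 0 := by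
    rw [hy]
    unfold prR
    have _ := Fintype.ofFinite H
    have _ := Fintype.ofFinite {a : k // a ^ p ^ (r + 1) = a}
    rw [finprod_eq_prod_of_fintype, Finset.prod_ne_zero_iff]
    intro h _
    rw [finprod_eq_prod_of_fintype, Finset.prod_ne_zero_iff]
    intro a _
    apply pow_ne_zero
    intro h0
    have h1 : sh a (fmp φ _ _ hgF uD) = 0 :=
      (map_eq_zero_iff _ (AlgEquiv.injective _)).mp h0
    exact shR_ne bb _ _ _ (hsh a) _ hu h1
  have hprod : prR C (gR F (p ^ (r + 1)) (φ b) (φ b)⁻¹) sh (fun h a => (E1 h a : ℕ))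
      (fmp φ _ _ hgF uD) * y ^ n = algebraMap F[X]
        (Bs (evR k F (gR F (p ^ (r + 1)) (φ b) (φ b)⁻¹)) R) (Polynomial.C c) * w ^ n := by
    rw [← heq, hy, ← prR_mul, ← prR_add, ← hEq]
  have hcc : algebraMap F[X] (Bs (evR k F (gR F (p ^ (r + 1)) (φ b) (φ b)⁻¹)) R)
      (Polynomial.C c) * algebraMap F[X] (Bs (evR k F (gR F (p ^ (r + 1)) (φ b) (φ b)⁻¹)) R)
      (Polynomial.C c⁻¹) = 1 := by
    rw [← map_mul, ← C_mul, mul_inv_cancel₀ hc, C_1, map_one]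
  have hdvd : y ∣ w := by
    rw [← IsIntegrallyClosed.pow_dvd_pow_iff hn0.ne']
    refine ⟨algebraMap F[X] (Bs (evR k F (gR F (p ^ (r + 1)) (φ b) (φ b)⁻¹)) R)
      (Polynomial.C c⁻¹) * prR C (gR F (p ^ (r + 1)) (φ b) (φ b)⁻¹) sh
        (fun h a => (E1 h a : ℕ)) (fmp φ _ _ hgF uD), ?_⟩
    linear_combination (-(algebraMap F[X] (Bs (evR k F (gR F (p ^ (r + 1)) (φ b) (φ b)⁻¹)) R)
      (Polynomial.C c⁻¹))) * hprod - w ^ n * hcc
  obtain ⟨w1, hw1⟩ := hdvd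
  have hfin : prR C (gR F (p ^ (r + 1)) (φ b) (φ b)⁻¹) sh (fun h a => (E1 h a : ℕ))
      (fmp φ _ _ hgF uD) = algebraMap F[X]
        (Bs (evR k F (gR F (p ^ (r + 1)) (φ b) (φ b)⁻¹)) R) (Polynomial.C c) * w1 ^ n := by
    apply mul_right_cancel₀ (pow_ne_zero n hy0)
    rw [hprod, hw1]
    ring
  intro a h h'
  by_contra hne
  apply hIII shD hshD E1 ⟨a, h, h', fun hh => hne (by
    change E h a % n = E h' a % n
    rw [← hE1, ← hE1, hh])⟩ c w1 hc
  rw [prR_map C φ _ _ hgF shD sh _ _ hcomp, hfin]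

end Pool.Agent.AB3
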