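import Pool.Agent.Lib.MP_5de024_nt.S.CertX.Def

/-!
# certificates: roots over the algebraic closure (project AB3, piece CERT, CB)
-/

set_option autoImplicit false
set_option linter.unusedSectionVars false

namespace Pool.Agent.AB3

open Pool.Agent.AB Polynomial

/-- the elements of an algebraic closure invariant under all automorphisms are purely
inseparable -/
theorem Clo_insep (p : ℕ) [Fact p.Prime] (L La : Type) [Field L] [CharP L p] [Field La]
    [Algebra L La] [IsAlgClosed La] [Algebra.IsAlgebraic L La] (x : La)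
    (hx : ∀ σ : La ≃ₐ[L] La, σ x = x) : ∃ n : ℕ, x ^ p ^ n ∈ (algebraMap L La).range := by
  classical
  have hexp : ExpChar L p := ExpChar.prime Fact.out
  have hac : IsAlgClosure L La := ⟨inferInstance, inferInstance⟩
  rw [← mem_perfectClosure_iff_pow_mem p, mem_perfectClosure_iff_natSepDegree_eq_one,
    natSepDegree_eq_of_isAlgClosed La, Finset.card_eq_one]
  refine ⟨x, ?_⟩
  ext y
  rw [Multiset.mem_toFinset, Finset.mem_singleton]
  have hint : IsIntegral L x := (Algebra.IsAlgebraic.isAlgebraic (R := L) x).isIntegral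
  constructor
  · intro hy
    have h1 : IsConjRoot L x y := by
      rw [isConjRoot_iff_mem_minpoly_aroots hint]
      exact hy
    obtain ⟨σ, hσ⟩ := isConjRoot_iff_exists_algEquiv.1 h1.symm
    rw [hx] at hσ
    exact hσ.symm
  · rintro rfl
    rw [mem_aroots]
    exact ⟨minpoly.ne_zero hint, minpoly.aeval L y⟩

/-- powers of polynomials with purely inseparable coefficients -/
theorem Clo_poly (p : ℕ) [Fact p.Prime] (L La : Type) [Field L] [Field La] [CharP La p]
    [Algebra L La] (e : ℕ) (q : La[X])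
    (hq : ∀ j, (q.coeff j) ^ p ^ e ∈ (algebraMap L La).range) :
    ∃ s : L[X], s.map (algebraMap L La) = q ^ p ^ e := by
  have hexp : ExpChar La p := ExpChar.prime Fact.out
  have hexp' : ExpChar La[X] p := inferInstance
  choose c hc using hq
  refine ⟨∑ j ∈ Finset.range (q.natDegree + 1), C (c j) * X ^ (j * p ^ e), ?_⟩
  rw [Polynomial.map_sum]
  conv_rhs => rw [q.as_sum_range_C_mul_X_pow, sum_pow_char_pow]
  refine Finset.sum_congr rfl fun j _ => ?_
  rw [Polynomial.map_mul, Polynomial.map_pow, map_C, map_X, hc, mul_pow, ← C_pow, ← pow_mul]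

/-- an element without `n`-th roots up to constants has no `n`-th root over the algebraic
closure -/
theorem cert_clo (p : ℕ) [Fact p.Prime] {k R H : Type} [Field k] [CharP k p] [CommRing R]
    [Algebra k[X] R] [Group H] [Finite H] (C : Cov k R H) (n : ℕ) (hn : n.Coprime p)
    (hn0 : 0 < n) (hζ : ∃ ζ : k, IsPrimitiveRoot ζ n) (L La : Type) [Field L] [Algebra k L]
    [Field La] [Algebra k La] [Algebra L La] [IsScalarTower k L La] [IsAlgClosed La]
    [Algebra.IsAlgebraic L La] (g : L[X]) (g' : La[X])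
    (hg : g.map (IsScalarTower.toAlgHom k L La : L →+* La) = g')
    (hdom : IsDomain (Bs (evR k La g') R)) (z : Bs (evR k L g) R)
    (hz : ∀ (e : ℕ) (c : L) (w : Bs (evR k L g) R), c ≠ 0 →
      z ^ p ^ e ≠ algebraMap L[X] (Bs (evR k L g) R) (Polynomial.C c) * w ^ n) :
    ∀ w : Bs (evR k La g') R, fmp (IsScalarTower.toAlgHom k L La) g g' hg z ≠ w ^ n := by
  classical
  intro w hw
  obtain ⟨b⟩ := cov_basis C
  have hcL : CharP L p := charP_of_injective_algebraMap (algebraMap k L).injective p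
  have hcLa : CharP La p := charP_of_injective_algebraMap (algebraMap k La).injective p
  have hinjL : Function.Injective (IsScalarTower.toAlgHom k L La) :=
    (algebraMap L La).injective
  have hfinj := fmp_inj b (IsScalarTower.toAlgHom k L La) g g' hg hinjL
  have hinj' : Function.Injective (algebraMap La[X] (Bs (evR k La g') R)) :=
    bs_inj C (evR k La g')
  have hcB : CharP (Bs (evR k La g') R) p := by
    have h1 : CharP La[X] p := inferInstance
    exact charP_of_injective_algebraMap hinj' p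
  have hexpB : ExpChar (Bs (evR k La g') R) p := ExpChar.prime Fact.out
  -- `w ≠ 0`
  have hw0 : w ≠ 0 := by
    intro h0
    rw [h0, zero_pow hn0.ne'] at hw
    have h1 : z = 0 := hfinj (by rw [hw, map_zero])
    refine hz 0 1 0 one_ne_zero ?_
    rw [h1, zero_pow hn0.ne', mul_zero, pow_zero, pow_one]
  obtain ⟨i0, hi0⟩ : ∃ i0, (Bs.basis (evR k La g') b).repr w i0 ≠ 0 := by
    by_contra hcon
    push Not at hcon
    apply hw0
    apply (Bs.basis (evR k La g') b).repr.injective
    rw [map_zero]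
    ext1 i
    exact hcon i
  obtain ⟨ω, hω⟩ : ∃ ω : La, ω = ((Bs.basis (evR k La g') b).repr w i0).leadingCoeff := ⟨_, rfl⟩
  have hω0 : ω ≠ 0 := by
    rw [hω, Ne, leadingCoeff_eq_zero]
    exact hi0
  -- the automorphisms
  have key : ∀ σ : La ≃ₐ[L] La, ∃ c : La, c ^ n = 1 ∧
      ∀ i j, σ (((Bs.basis (evR k La g') b).repr w i).coeff j) =
        c * ((Bs.basis (evR k La g') b).repr w i).coeff j := by
    intro σ
    obtain ⟨τ, hτ⟩ : ∃ τ : La →ₐ[k] La, τ = (σ : La →ₐ[L] La).restrictScalars k := ⟨_, rfl⟩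
    have hτσ : ∀ x, τ x = σ x := by
      intro x
      rw [hτ]
      rfl
    have hcomp : ∀ a : L, τ (IsScalarTower.toAlgHom k L La a) =
        IsScalarTower.toAlgHom k L La a := by
      intro a
      rw [hτσ]
      exact σ.commutes a
    have hg' : g'.map (τ : La →+* La) = g' := by
      rw [← hg, Polynomial.map_map]
      congr 1
      ext a
      exact hcomp a
    have h1 : fmp τ g' g' hg' w ^ n = w ^ n := by
      rw [← map_pow, ← hw, fmp_comp (IsScalarTower.toAlgHom k L La) τ
        (IsScalarTower.toAlgHom k L La) hcomp g g' g' hg hg' hg]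
    obtain ⟨ζ, hζ⟩ := hζ
    obtain ⟨κ, hκ⟩ : ∃ κ : k →+* Bs (evR k La g') R, κ =
      (algebraMap La[X] (Bs (evR k La g') R)).comp (Polynomial.C.comp (algebraMap k La)) :=
      ⟨_, rfl⟩
    have hprim : IsPrimitiveRoot (κ ζ) n := hζ.map_of_injective κ.injective
    have h2 := hprim.pow_sub_pow_eq_prod_sub_mul (fmp τ g' g' hg' w) w hn0
    rw [h1, sub_self] at h2
    obtain ⟨ξ, hξ, h3⟩ := Finset.prod_eq_zero_iff.1 h2.symm
    rw [mem_nthRootsFinset hn0] at hξ
    have hne : NeZero n := ⟨hn0.ne'⟩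
    obtain ⟨m, -, hm⟩ := hprim.eq_pow_of_pow_eq_one hξ
    refine ⟨algebraMap k La (ζ ^ m), ?_, ?_⟩
    · rw [← map_pow, ← pow_mul, mul_comm, pow_mul, hζ.pow_eq_one, one_pow, map_one]
    · intro i j
      have h4 : fmp τ g' g' hg' w =
          (Polynomial.C (algebraMap k La (ζ ^ m)) : La[X]) • w := by
        rw [sub_eq_zero.1 h3, ← hm, ← map_pow, hκ, Algebra.smul_def]
        rfl
      have h5 := fmp_repr b τ g' g' hg' w i
      rw [h4, map_smul, Finsupp.smul_apply, smul_eq_mul] at h5
      have h6 := congrArg (fun q => coeff q j) h5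
      simp only [coeff_C_mul, coeff_map] at h6
      rw [h6]
      exact (hτσ _).symm
  have hfixed : ∀ i j, ∀ σ : La ≃ₐ[L] La,
      σ (((Bs.basis (evR k La g') b).repr w i).coeff j / ω) =
        ((Bs.basis (evR k La g') b).repr w i).coeff j / ω := by
    intro i j σ
    obtain ⟨c, hc1, hc⟩ := key σ
    have hc0 : c ≠ 0 := by
      intro h0
      rw [h0, zero_pow hn0.ne'] at hc1
      exact zero_ne_one hc1
    have h1 : σ ω = c * ω := by
      rw [hω]
      exact hc i0 _
    rw [map_div₀, hc, h1, mul_div_mul_left _ _ hc0]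
  have hωfix : ∀ σ : La ≃ₐ[L] La, σ (ω ^ n) = ω ^ n := by
    intro σ
    obtain ⟨c, hc1, hc⟩ := key σ
    have h1 : σ ω = c * ω := by
      rw [hω]
      exact hc i0 _
    rw [map_pow, h1, mul_pow, hc1, one_mul]
  -- the exponents
  have hmono : ∀ (x : La) (e e' : ℕ), e ≤ e' → x ^ p ^ e ∈ (algebraMap L La).range →
      x ^ p ^ e' ∈ (algebraMap L La).range := by
    intro x e e' he hx
    obtain ⟨d, rfl⟩ := Nat.exists_eq_add_of_le he
    rw [pow_add, pow_mul]
    exact pow_mem hx _
  choose e1 he1 using fun i j => Clo_insep p L La _ (hfixed i j)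
  obtain ⟨e2, he2⟩ := Clo_insep p L La _ hωfix
  obtain ⟨e, he⟩ : ∃ e, e = e2 + ∑ i, ∑ j ∈ Finset.range
    (((Bs.basis (evR k La g') b).repr w i).natDegree + 1), e1 i j := ⟨_, rfl⟩
  have hω2 : (ω ^ n) ^ p ^ e ∈ (algebraMap L La).range := hmono _ e2 e (by omega) he2
  have hco : ∀ i j, (((Bs.basis (evR k La g') b).repr w i).coeff j / ω) ^ p ^ e ∈
      (algebraMap L La).range := by
    intro i j
    by_cases hj : j ≤ ((Bs.basis (evR k La g') b).repr w i).natDegree
    · refine hmono _ (e1 i j) e ?_ (he1 i j)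
      have h1 : e1 i j ≤ ∑ j ∈ Finset.range
          (((Bs.basis (evR k La g') b).repr w i).natDegree + 1), e1 i j :=
        Finset.single_le_sum (f := fun j => e1 i j) (fun _ _ => Nat.zero_le _)
          (Finset.mem_range.2 (by omega))
      have h2 := Finset.single_le_sum (f := fun i => ∑ j ∈ Finset.range
          (((Bs.basis (evR k La g') b).repr w i).natDegree + 1), e1 i j)
          (fun _ _ => Nat.zero_le _) (Finset.mem_univ i)
      rw [he]
      exact h1.trans (h2.trans (Nat.le_add_left _ _))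
    · rw [coeff_eq_zero_of_natDegree_lt (by omega), zero_div,
        zero_pow (pow_pos (Nat.Prime.pos Fact.out) e).ne']
      exact zero_mem _
  -- the normalized root
  obtain ⟨q, hq⟩ : ∃ q : Fin (Nat.card H) → La[X],
    q = fun i => Polynomial.C ω⁻¹ * (Bs.basis (evR k La g') b).repr w i := ⟨_, rfl⟩
  have hqc : ∀ i j, ((q i).coeff j) ^ p ^ e ∈ (algebraMap L La).range := by
    intro i j
    rw [hq]
    simp only
    rw [coeff_C_mul, ← div_eq_inv_mul]
    exact hco i j
  choose s hs using fun i => Clo_poly p L La e (q i) (hqc i)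
  obtain ⟨w1, hw1⟩ : ∃ w1 : Bs (evR k La g') R, w1 =
    ∑ i, algebraMap La[X] (Bs (evR k La g') R) (q i) * Bs.inR (evR k La g') R (b i) := ⟨_, rfl⟩
  have hww1 : w = algebraMap La[X] (Bs (evR k La g') R) (Polynomial.C ω) * w1 := by
    rw [hw1, Finset.mul_sum]
    conv_lhs => rw [← (Bs.basis (evR k La g') b).sum_repr w]
    refine Finset.sum_congr rfl fun i _ => ?_
    rw [← mul_assoc, ← map_mul, hq]
    simp only
    rw [← mul_assoc, ← C_mul, mul_inv_cancel₀ hω0, C_1, one_mul, Algebra.smul_def,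
      Bs.basis_apply]
  obtain ⟨w2, hw2⟩ : ∃ w2 : Bs (evR k L g) R, w2 =
    ∑ i, algebraMap L[X] (Bs (evR k L g) R) (s i) * Bs.inR (evR k L g) R (b i ^ p ^ e) :=
    ⟨_, rfl⟩
  have hw12 : w1 ^ p ^ e = fmp (IsScalarTower.toAlgHom k L La) g g' hg w2 := by
    rw [hw1, hw2, sum_pow_char_pow, map_sum]
    refine Finset.sum_congr rfl fun i _ => ?_
    rw [mul_pow, ← map_pow, ← hs i, map_mul, fmp_alg, fmp_inR, map_pow]
    rfl
  obtain ⟨c, hc⟩ := hω2
  have hc0 : c ≠ 0 := by
    intro h0
    rw [h0, map_zero] at hc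
    exact pow_ne_zero _ (pow_ne_zero _ hω0) hc.symm
  refine hz e c w2 hc0 (hfinj ?_)
  rw [map_pow, hw, map_mul, map_pow, ← hw12, fmp_alg, hww1, mul_pow, mul_pow, map_C]
  have h1 : (algebraMap La[X] (Bs (evR k La g') R) (Polynomial.C ω) ^ n) ^ p ^ e =
      algebraMap La[X] (Bs (evR k La g') R) (Polynomial.C
        ((IsScalarTower.toAlgHom k L La : L →+* La) c)) := by
    have h2 : (IsScalarTower.toAlgHom k L La : L →+* La) c = (ω ^ n) ^ p ^ e := hc
    rw [h2, ← map_pow, ← map_pow, C_pow, C_pow]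
  rw [h1, ← pow_mul, ← pow_mul, mul_comm n]

end Pool.Agent.AB3
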