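import Pool.Agent.Lib.MP_5de024_nt.S.GeoS
import Pool.Agent.Lib.MP_5de024_nt.S.GeoM

/-!
# certificates: base change along algebras (project AB3, piece CERT)
-/

set_option autoImplicit false
set_option linter.unusedSectionVars false

namespace Pool.Agent.AB3

open Pool.Agent.AB Polynomial

/-- the substitution `X ↦ g` over a commutative algebra `A` -/
noncomputable def evR (k A : Type) [Field k] [CommRing A] [Algebra k A] (g : A[X]) :
    k[X] →+* A[X] :=
  Polynomial.eval₂RingHom (Polynomial.C.comp (algebraMap k A)) g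

theorem evR_eq (k F : Type) [Field k] [Field F] [Algebra k F] (g : F[X]) :
    evR k F g = evg k F g := rfl

/-- the polynomial of the family over a commutative algebra, `b'` is the inverse of `b` -/
noncomputable def gR (A : Type) [CommRing A] (P : ℕ) (b b' : A) : A[X] :=
  C b' * (X - C (b ^ (P - 1)) * X ^ P)

theorem gR_eq (F : Type) [Field F] (P : ℕ) (β : F) : gR F P β β⁻¹ = gb F P β := rfl

theorem gR_map {A A' : Type} [CommRing A] [CommRing A'] (ψ : A →+* A') (P : ℕ) (b b' : A) :
    (gR A P b b').map ψ = gR A' P (ψ b) (ψ b') := by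
  unfold gR
  rw [Polynomial.map_mul, Polynomial.map_sub, Polynomial.map_mul, Polynomial.map_pow, map_C,
    map_C, map_X, map_pow]

section fm

variable {k R A A' A'' : Type} [Field k] [CommRing R] [Algebra k[X] R] [CommRing A]
  [Algebra k A] [CommRing A'] [Algebra k A'] [CommRing A''] [Algebra k A'']

theorem evR_map (ψ : A →ₐ[k] A') (g : A[X]) (g' : A'[X]) (hg : g.map (ψ : A →+* A') = g')
    (f : k[X]) : Polynomial.mapRingHom (ψ : A →+* A') (evR k A g f) = evR k A' g' f := by
  have h : (Polynomial.mapRingHom (ψ : A →+* A')).comp (evR k A g) = evR k A' g' := by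
    apply Polynomial.ringHom_ext
    · intro a
      rw [RingHom.comp_apply]
      unfold evR
      rw [coe_eval₂RingHom, eval₂_C, coe_eval₂RingHom, eval₂_C, RingHom.comp_apply,
        RingHom.comp_apply, coe_mapRingHom, map_C, RingHom.coe_coe, AlgHom.commutes]
    · rw [RingHom.comp_apply]
      unfold evR
      rw [coe_eval₂RingHom, eval₂_X, coe_eval₂RingHom, eval₂_X, coe_mapRingHom, hg]
  exact RingHom.congr_fun h f

/-- the map of the base changes given by a homomorphism of algebras -/
noncomputable def fmp (ψ : A →ₐ[k] A') (g : A[X]) (g' : A'[X])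
    (hg : g.map (ψ : A →+* A') = g') : Bs (evR k A g) R →+* Bs (evR k A' g') R :=
  Bs.map (evR k A g) (Polynomial.mapRingHom (ψ : A →+* A')) (evR k A' g') (evR_map ψ g g' hg)

theorem fmp_alg (ψ : A →ₐ[k] A') (g : A[X]) (g' : A'[X]) (hg : g.map (ψ : A →+* A') = g')
    (f : A[X]) : fmp (R := R) ψ g g' hg (algebraMap A[X] (Bs (evR k A g) R) f) =
      algebraMap A'[X] (Bs (evR k A' g') R) (f.map (ψ : A →+* A')) :=
  Bs.map_alg _ _ _ _ _

theorem fmp_inR (ψ : A →ₐ[k] A') (g : A[X]) (g' : A'[X]) (hg : g.map (ψ : A →+* A') = g')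
    (r : R) : fmp ψ g g' hg (Bs.inR (evR k A g) R r) = Bs.inR (evR k A' g') R r :=
  Bs.map_inR _ _ _ _ _

/-- the coordinates of the image -/
theorem fmp_repr {ι : Type} (b : Module.Basis ι k[X] R) (ψ : A →ₐ[k] A') (g : A[X])
    (g' : A'[X]) (hg : g.map (ψ : A →+* A') = g') (z : Bs (evR k A g) R) (i : ι) :
    (Bs.basis (evR k A' g') b).repr (fmp ψ g g' hg z) i =
      ((Bs.basis (evR k A g) b).repr z i).map (ψ : A →+* A') :=
  bs_map_repr (evR k A g) (Polynomial.mapRingHom (ψ : A →+* A')) (evR k A' g')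
    (evR_map ψ g g' hg) b z i

theorem fmp_inj {ι : Type} (b : Module.Basis ι k[X] R) (ψ : A →ₐ[k] A') (g : A[X])
    (g' : A'[X]) (hg : g.map (ψ : A →+* A') = g') (hψ : Function.Injective ψ) :
    Function.Injective (fmp (R := R) ψ g g' hg) := by
  intro x y hxy
  apply (Bs.basis (evR k A g) b).repr.injective
  ext1 i
  apply Polynomial.map_injective (ψ : A →+* A') hψ
  rw [← fmp_repr b ψ g g' hg x i, ← fmp_repr b ψ g g' hg y i, hxy]

theorem fmp_comp (ψ : A →ₐ[k] A') (ψ' : A' →ₐ[k] A'') (ψ'' : A →ₐ[k] A'')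
    (hψ : ∀ a, ψ' (ψ a) = ψ'' a) (g : A[X]) (g' : A'[X]) (g'' : A''[X])
    (hg : g.map (ψ : A →+* A') = g') (hg' : g'.map (ψ' : A' →+* A'') = g'')
    (hg'' : g.map (ψ'' : A →+* A'') = g'') (z : Bs (evR k A g) R) :
    fmp ψ' g' g'' hg' (fmp ψ g g' hg z) = fmp ψ'' g g'' hg'' z := by
  have h : (fmp (R := R) ψ' g' g'' hg').comp (fmp ψ g g' hg) = fmp ψ'' g g'' hg'' := by
    apply Bs.hom_ext
    · intro f
      rw [RingHom.comp_apply, fmp_alg, fmp_alg, fmp_alg, Polynomial.map_map]
      congr 2
      ext a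
      exact hψ a
    · intro r
      rw [RingHom.comp_apply, fmp_inR, fmp_inR, fmp_inR]
  exact RingHom.congr_fun h z

/-- lifting of elements: the coefficients of the coordinates lift -/
theorem fmp_lift {N : ℕ} (b : Module.Basis (Fin N) k[X] R) (ψ : A →ₐ[k] A') (g : A[X])
    (g' : A'[X]) (hg : g.map (ψ : A →+* A') = g') (z : Bs (evR k A' g') R)
    (hz : ∀ i j, ((Bs.basis (evR k A' g') b).repr z i).coeff j ∈ Set.range ψ) :
    ∃ z' : Bs (evR k A g) R, fmp ψ g g' hg z' = z := by
  have h1 : ∀ i, ∃ q : A[X], q.map (ψ : A →+* A') = (Bs.basis (evR k A' g') b).repr z i := by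
    intro i
    have h2 : (Bs.basis (evR k A' g') b).repr z i ∈ Polynomial.lifts (ψ : A →+* A') := by
      rw [Polynomial.lifts_iff_coeff_lifts]
      intro j
      exact hz i j
    obtain ⟨q, hq⟩ := (Polynomial.mem_lifts _).mp h2
    exact ⟨q, hq⟩
  choose q hq using h1
  refine ⟨∑ i, q i • Bs.basis (evR k A g) b i, ?_⟩
  rw [map_sum]
  conv_rhs => rw [← (Bs.basis (evR k A' g') b).sum_repr z]
  apply Finset.sum_congr rfl
  intro i _
  rw [Algebra.smul_def, map_mul, fmp_alg, hq, Bs.basis_apply, fmp_inR, Algebra.smul_def,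
    Bs.basis_apply]

variable {H : Type} [Group H]

/-- the map commutes with the action -/
theorem fmp_act [Finite H] (C : Cov k R H) (ψ : A →ₐ[k] A') (g : A[X]) (g' : A'[X])
    (hg : g.map (ψ : A →+* A') = g') (h : H) (z : Bs (evR k A g) R) :
    fmp ψ g g' hg (Bs.act (evR k A g) C.act h z) =
      Bs.act (evR k A' g') C.act h (fmp ψ g g' hg z) :=
  bs_map_act C (evR k A g) (Polynomial.mapRingHom (ψ : A →+* A')) (evR k A' g')
    (evR_map ψ g g' hg) h z

end fm

/-! ### translations -/

/-- the translation `t ↦ t + d` over `A` -/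
def IsShR {k A R : Type} [Field k] [CommRing A] [Algebra k A] [CommRing R] [Algebra k[X] R]
    (g : A[X]) (d : A) (s : Bs (evR k A g) R →+* Bs (evR k A g) R) : Prop :=
  (∀ r : R, s (Bs.inR (evR k A g) R r) = Bs.inR (evR k A g) R r) ∧
  ∀ f : A[X], s (algebraMap A[X] (Bs (evR k A g) R) f) =
    algebraMap A[X] (Bs (evR k A g) R) (f.comp (X + C d))

theorem isShf_iff {k F R : Type} [Field k] [Field F] [Algebra k F] [CommRing R]
    [Algebra k[X] R] (g : F[X]) (β a : F) (s : Fam k F g R →+* Fam k F g R) :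
    IsShf g β a s ↔ IsShR (k := k) g (a / β) s := Iff.rfl

/-- translations are compatible with the maps -/
theorem shR_map {k R A A' : Type} [Field k] [CommRing R] [Algebra k[X] R] [CommRing A]
    [Algebra k A] [CommRing A'] [Algebra k A'] (ψ : A →ₐ[k] A') (g : A[X]) (g' : A'[X])
    (hg : g.map (ψ : A →+* A') = g') (d : A) (d' : A') (hd : ψ d = d')
    (s : Bs (evR k A g) R →+* Bs (evR k A g) R) (hs : IsShR g d s)
    (s' : Bs (evR k A' g') R →+* Bs (evR k A' g') R) (hs' : IsShR g' d' s')
    (z : Bs (evR k A g) R) : fmp ψ g g' hg (s z) = s' (fmp ψ g g' hg z) := by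
  have h : (fmp (R := R) ψ g g' hg).comp s = s'.comp (fmp ψ g g' hg) := by
    apply Bs.hom_ext
    · intro f
      rw [RingHom.comp_apply, RingHom.comp_apply, hs.2, fmp_alg, fmp_alg, hs'.2,
        Polynomial.map_comp, Polynomial.map_add, map_X, map_C, RingHom.coe_coe, hd]
    · intro r
      rw [RingHom.comp_apply, RingHom.comp_apply, hs.1, fmp_inR, hs'.1]
  exact RingHom.congr_fun h z

/-- translations exist -/
theorem shR_exists (p : ℕ) [Fact p.Prime] {k R A : Type} [Field k] [CharP k p] [CommRing R]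
    [Algebra k[X] R] [CommRing A] [Algebra k A] (r : ℕ) (b b' a : A) (hb : b * b' = 1)
    (ha : a ^ p ^ r = a) :
    ∃ s : Bs (evR k A (gR A (p ^ r) b b')) R →+* Bs (evR k A (gR A (p ^ r) b b')) R,
      IsShR (gR A (p ^ r) b b') (a * b') s := by
  have hp : p.Prime := Fact.out
  rcases subsingleton_or_nontrivial A with hA | hA
  · refine ⟨RingHom.id _, fun r => rfl, fun f => ?_⟩
    rw [RingHom.id_apply]
    congr 1
    exact Subsingleton.elim _ _
  have hcF : CharP A p := charP_of_injective_algebraMap (algebraMap k A).injective p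
  have hg : (gR A (p ^ r) b b').comp (X + C (a * b')) = gR A (p ^ r) b b' := by
    unfold gR
    rw [mul_comp, sub_comp, mul_comp, C_comp, C_comp, X_comp, pow_comp, X_comp,
      add_pow_char_pow, ← Polynomial.C_pow]
    have h1 : b ^ (p ^ r - 1) * (a * b') ^ p ^ r = a * b' := by
      rw [mul_pow, ha]
      have h3 : b' ^ p ^ r = b' ^ (p ^ r - 1) * b' := by
        rw [← pow_succ, Nat.sub_add_cancel (Nat.one_le_pow _ _ hp.pos)]
      rw [h3]
      have h4 : b ^ (p ^ r - 1) * b' ^ (p ^ r - 1) = 1 := by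
        rw [← mul_pow, hb, one_pow]
      linear_combination a * b' * h4
    rw [mul_add, ← C_mul, h1]
    ring
  have hcomp : ∀ f : k[X], (compRingHom (X + C (a * b')))
      (evR k A (gR A (p ^ r) b b') f) = evR k A (gR A (p ^ r) b b') f := by
    intro f
    have h : (compRingHom (X + C (a * b'))).comp (evR k A (gR A (p ^ r) b b')) =
        evR k A (gR A (p ^ r) b b') := by
      apply Polynomial.ringHom_ext
      · intro b
        rw [RingHom.comp_apply, coe_compRingHom_apply]
        unfold evR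
        rw [coe_eval₂RingHom, eval₂_C, RingHom.comp_apply, C_comp]
      · rw [RingHom.comp_apply, coe_compRingHom_apply]
        unfold evR
        rw [coe_eval₂RingHom, eval₂_X, hg]
    exact RingHom.congr_fun h f
  refine ⟨Bs.map (evR k A (gR A (p ^ r) b b')) (compRingHom (X + C (a * b')))
    (evR k A (gR A (p ^ r) b b')) hcomp, ?_, ?_⟩
  · intro x
    exact Bs.map_inR _ _ _ _ x
  · intro f
    rw [Bs.map_alg, coe_compRingHom_apply]

/-! ### the product -/

/-- the product of the translates and conjugates -/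
noncomputable def prR {k R H A J : Type} [Field k] [CommRing R] [Algebra k[X] R] [Group H]
    [CommRing A] [Algebra k A] (C : Cov k R H) (g : A[X])
    (s : J → (Bs (evR k A g) R →+* Bs (evR k A g) R)) (E : H → J → ℕ) (u : Bs (evR k A g) R) :
    Bs (evR k A g) R :=
  ∏ᶠ h : H, ∏ᶠ a : J, (Bs.act (evR k A g) C.act h (s a u)) ^ E h a

/-- the product is compatible with the maps -/
theorem prR_map {k R H A A' J : Type} [Field k] [CommRing R] [Algebra k[X] R] [Group H]
    [Finite H] [Finite J] [CommRing A] [Algebra k A] [CommRing A'] [Algebra k A']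
    (C : Cov k R H) (ψ : A →ₐ[k] A') (g : A[X]) (g' : A'[X])
    (hg : g.map (ψ : A →+* A') = g') (s : J → (Bs (evR k A g) R →+* Bs (evR k A g) R))
    (s' : J → (Bs (evR k A' g') R →+* Bs (evR k A' g') R)) (E : H → J → ℕ)
    (u : Bs (evR k A g) R) (hs : ∀ a z, fmp ψ g g' hg (s a z) = s' a (fmp ψ g g' hg z)) :
    fmp ψ g g' hg (prR C g s E u) = prR C g' s' E (fmp ψ g g' hg u) := by
  classical
  have _ := Fintype.ofFinite H
  have _ := Fintype.ofFinite J
  unfold prR
  rw [finprod_eq_prod_of_fintype, finprod_eq_prod_of_fintype, map_prod]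
  apply Finset.prod_congr rfl
  intro h _
  rw [finprod_eq_prod_of_fintype, finprod_eq_prod_of_fintype, map_prod]
  apply Finset.prod_congr rfl
  intro a _
  rw [map_pow, fmp_act, hs]

/-- multiplying the exponents -/
theorem prR_mul {k R H A J : Type} [Field k] [CommRing R] [Algebra k[X] R] [Group H]
    [Finite H] [Finite J] [CommRing A] [Algebra k A] (C : Cov k R H) (g : A[X])
    (s : J → (Bs (evR k A g) R →+* Bs (evR k A g) R)) (E : H → J → ℕ) (m : ℕ)
    (u : Bs (evR k A g) R) : prR C g s (fun h a => m * E h a) u = prR C g s E u ^ m := by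
  classical
  have _ := Fintype.ofFinite H
  have _ := Fintype.ofFinite J
  unfold prR
  rw [finprod_eq_prod_of_fintype, finprod_eq_prod_of_fintype, ← Finset.prod_pow]
  apply Finset.prod_congr rfl
  intro h _
  rw [finprod_eq_prod_of_fintype, finprod_eq_prod_of_fintype, ← Finset.prod_pow]
  apply Finset.prod_congr rfl
  intro a _
  rw [← pow_mul, mul_comm (E h a) m]

/-- adding exponents -/
theorem prR_add {k R H A J : Type} [Field k] [CommRing R] [Algebra k[X] R] [Group H]
    [Finite H] [Finite J] [CommRing A] [Algebra k A] (C : Cov k R H) (g : A[X])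
    (s : J → (Bs (evR k A g) R →+* Bs (evR k A g) R)) (E E' : H → J → ℕ)
    (u : Bs (evR k A g) R) :
    prR C g s (fun h a => E h a + E' h a) u = prR C g s E u * prR C g s E' u := by
  classical
  have _ := Fintype.ofFinite H
  have _ := Fintype.ofFinite J
  unfold prR
  rw [finprod_eq_prod_of_fintype, finprod_eq_prod_of_fintype, finprod_eq_prod_of_fintype,
    ← Finset.prod_mul_distrib]
  apply Finset.prod_congr rfl
  intro h _
  rw [finprod_eq_prod_of_fintype, finprod_eq_prod_of_fintype, finprod_eq_prod_of_fintype,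
    ← Finset.prod_mul_distrib]
  apply Finset.prod_congr rfl
  intro a _
  rw [pow_add]

end Pool.Agent.AB3
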