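import Mathlib

/-!
# certificates: degrees and integrality at infinity (project AB3, piece CERT, CA1)
-/

set_option autoImplicit false
set_option linter.unusedSectionVars false

namespace Pool.Agent.AB3

open Polynomial

/-- `x` satisfies a monic equation with coefficients polynomials of degree at most `D` -/
def IbD {F K : Type} [Field F] [Field K] (τ : F[X] →+* K) (D : ℕ) (x : K) : Prop :=
  ∃ q : F[X][X], q.Monic ∧ q.eval₂ τ x = 0 ∧ ∀ j, (q.coeff j).natDegree ≤ D

/-- the map `f ↦ f (1 / t)` -/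
noncomputable def Inf_iota {F K : Type} [Field F] [Field K] (τ : F[X] →+* K) : F[X] →+* K :=
  Polynomial.eval₂RingHom (τ.comp C) (τ X)⁻¹

theorem Inf_tau {F K : Type} [Field F] [Field K] (τ : F[X] →+* K) (f : F[X]) :
    eval₂ (τ.comp C) (τ X) f = τ f := by
  have h : Polynomial.eval₂RingHom (τ.comp C) (τ X) = τ := by
    apply Polynomial.ringHom_ext
    · intro a
      rw [coe_eval₂RingHom, eval₂_C, RingHom.comp_apply]
    · rw [coe_eval₂RingHom, eval₂_X]
  exact RingHom.congr_fun h f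

theorem Inf_iota_mul {F K : Type} [Field F] [Field K] (τ : F[X] →+* K) (h0 : τ X ≠ 0)
    (f : F[X]) (a : ℕ) (hf : f.natDegree ≤ a) :
    Inf_iota τ f * τ X ^ a = τ (reflect a f) := by
  let _ : Invertible (τ X)⁻¹ := invertibleOfNonzero (inv_ne_zero h0)
  have h := eval₂_reflect_mul_pow (τ.comp C) (τ X)⁻¹ a f hf
  rw [invOf_eq_inv, inv_inv, Inf_tau] at h
  rw [Inf_iota, coe_eval₂RingHom, ← h, mul_assoc, ← mul_pow, inv_mul_cancel₀ h0, one_pow,
    mul_one]

theorem Inf_tau_mul {F K : Type} [Field F] [Field K] (τ : F[X] →+* K) (h0 : τ X ≠ 0)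
    (f : F[X]) (a : ℕ) (hf : f.natDegree ≤ a) :
    τ f * (τ X)⁻¹ ^ a = Inf_iota τ (reflect a f) := by
  let _ : Invertible (τ X) := invertibleOfNonzero h0
  have h := eval₂_reflect_mul_pow (τ.comp C) (τ X) a f hf
  rw [invOf_eq_inv, Inf_tau] at h
  rw [Inf_iota, coe_eval₂RingHom, ← h, mul_assoc, ← mul_pow, mul_inv_cancel₀ h0, one_pow,
    mul_one]

/-- an element with bounded equation becomes integral at infinity -/
theorem Inf_int {F K : Type} [Field F] [Field K] (τ : F[X] →+* K) (h0 : τ X ≠ 0) {D : ℕ}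
    {x : K} (h : IbD τ D x) : (Inf_iota τ).IsIntegralElem ((τ X)⁻¹ ^ D * x) := by
  obtain ⟨q, hq, hx, hD⟩ := h
  have hm : (q.map τ).Monic := hq.map τ
  have hnd : (q.map τ).natDegree = q.natDegree := hq.natDegree_map τ
  have h1 : ((q.map τ).scaleRoots ((τ X)⁻¹ ^ D)) ∈ lifts (Inf_iota τ) := by
    rw [lifts_iff_coeff_lifts]
    intro j
    rw [coeff_scaleRoots, coeff_map, hnd, ← pow_mul, Inf_tau_mul τ h0]
    · exact ⟨_, rfl⟩
    · rcases lt_or_ge j q.natDegree with hj | hj
      · have h2 : 1 ≤ q.natDegree - j := by omega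
        exact (hD j).trans (Nat.le_mul_of_pos_right D h2)
      · rcases hj.lt_or_eq with hj | hj
        · rw [coeff_eq_zero_of_natDegree_lt hj, natDegree_zero]
          exact Nat.zero_le _
        · rw [← hj, hq.coeff_natDegree, natDegree_one]
          exact Nat.zero_le _
  obtain ⟨p, hp, -, hpm⟩ := lifts_and_natDegree_eq_and_monic h1 ((monic_scaleRoots_iff _).2 hm)
  refine ⟨p, hpm, ?_⟩
  have h2 := scaleRoots_eval₂_eq_zero (p := q.map τ) (RingHom.id K) (r := x)
    (s := (τ X)⁻¹ ^ D) (by rw [eval₂_map, RingHom.id_comp]; exact hx)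
  rw [RingHom.id_apply, ← hp, eval₂_map, RingHom.id_comp] at h2
  exact h2

/-- a polynomial which is integral at infinity after division by `t ^ a` has degree at most
`a` -/
theorem Inf_deg {F K : Type} [Field F] [Field K] (τ : F[X] →+* K)
    (hτ : Function.Injective τ) (a : ℕ) (g : F[X])
    (h : (Inf_iota τ).IsIntegralElem ((τ X)⁻¹ ^ a * τ g)) : g.natDegree ≤ a := by
  have h0 : τ X ≠ 0 := (map_ne_zero_iff τ hτ).2 X_ne_zero
  by_contra hlt
  push Not at hlt
  obtain ⟨p, hp, he⟩ := h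
  obtain ⟨M, hM⟩ : ∃ M, M = p.natDegree := ⟨_, rfl⟩
  rw [eval₂_eq_sum_range, Finset.sum_range_succ, hp.coeff_natDegree, map_one, one_mul, ← hM] at he
  rcases Nat.eq_zero_or_pos M with hM0 | hM0
  · rw [hM0, Finset.range_zero, Finset.sum_empty, pow_zero, zero_add] at he
    exact one_ne_zero he
  obtain ⟨b, hb⟩ : ∃ b, ∀ j ∈ Finset.range M, (p.coeff j).natDegree ≤ b :=
    ⟨(Finset.range M).sup fun j => (p.coeff j).natDegree, fun j hj =>
      Finset.le_sup (f := fun j => (p.coeff j).natDegree) hj⟩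
  have hy : ∀ j, j ≤ M → ((τ X)⁻¹ ^ a * τ g) ^ j * τ X ^ (a * M) =
      τ (g ^ j * X ^ (a * (M - j))) := by
    intro j hj
    have h1 : a * M = a * j + a * (M - j) := by
      rw [← Nat.mul_add]
      congr 1
      omega
    rw [h1, pow_add, mul_pow, ← pow_mul, map_mul, map_pow, map_pow, inv_pow]
    have h2 : τ X ^ (a * j) ≠ 0 := pow_ne_zero _ h0
    field_simp
  have h1 : τ (∑ j ∈ Finset.range M, reflect b (p.coeff j) * (g ^ j * X ^ (a * (M - j))) +
      g ^ M * X ^ b) = 0 := by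
    have h2 : (∑ j ∈ Finset.range M, Inf_iota τ (p.coeff j) * ((τ X)⁻¹ ^ a * τ g) ^ j +
        ((τ X)⁻¹ ^ a * τ g) ^ M) * (τ X ^ b * τ X ^ (a * M)) = 0 := by
      rw [he, zero_mul]
    rw [← h2, add_mul, Finset.sum_mul, map_add, map_sum]
    congr 1
    · apply Finset.sum_congr rfl
      intro j hj
      rw [map_mul, ← hy j (Finset.mem_range.1 hj).le, ← Inf_iota_mul τ h0 _ _ (hb j hj)]
      ring
    · have h3 := hy M le_rfl
      rw [Nat.sub_self, Nat.mul_zero, pow_zero, mul_one] at h3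
      rw [map_mul, ← h3, map_pow τ X b]
      ring
  rw [map_eq_zero_iff τ hτ] at h1
  have h2 : g ^ M * X ^ b = -∑ j ∈ Finset.range M, reflect b (p.coeff j) *
      (g ^ j * X ^ (a * (M - j))) := by
    linear_combination h1
  have hg : g ≠ 0 := by
    rintro rfl
    rw [natDegree_zero] at hlt
    exact absurd hlt (Nat.not_lt_zero _)
  have h3 : (g ^ M * X ^ b).natDegree = M * g.natDegree + b := by
    rw [natDegree_mul (pow_ne_zero _ hg) (pow_ne_zero _ X_ne_zero), natDegree_pow,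
      natDegree_X_pow]
  have h4 : (-∑ j ∈ Finset.range M, reflect b (p.coeff j) *
      (g ^ j * X ^ (a * (M - j)))).natDegree ≤ M * g.natDegree + b - 1 := by
    rw [natDegree_neg]
    apply natDegree_sum_le_of_forall_le
    intro j hj
    have hjM := Finset.mem_range.1 hj
    have e1 : (reflect b (p.coeff j)).natDegree ≤ b :=
      (natDegree_reflect_le).trans (max_le le_rfl (hb j hj))
    have e2 : (g ^ j * X ^ (a * (M - j))).natDegree ≤ j * g.natDegree + a * (M - j) := by
      refine natDegree_mul_le.trans ?_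
      rw [natDegree_pow, natDegree_X_pow]
    refine natDegree_mul_le.trans ((Nat.add_le_add e1 e2).trans ?_)
    obtain ⟨r, hr⟩ : ∃ r, M = j + (r + 1) := ⟨M - j - 1, by omega⟩
    have e3 : M - j = r + 1 := by omega
    rw [e3, hr]
    have e4 : (a + 1) * (r + 1) ≤ g.natDegree * (r + 1) := Nat.mul_le_mul_right _ hlt
    have e5 : (j + (r + 1)) * g.natDegree = j * g.natDegree + g.natDegree * (r + 1) := by ring
    rw [e5]
    have e6 : (a + 1) * (r + 1) = a * (r + 1) + (r + 1) := by ring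
    omega
  rw [← h2, h3] at h4
  have h5 : 0 < M * g.natDegree := Nat.mul_pos hM0 (by omega)
  omega

/-- the degree of the trace of `w e'` if `w ^ n` is a combination of the `e l` with coefficients
of degree at most `m` -/
theorem inf_bound {F K : Type} [Field F] [Field K] (τ : F[X] →+* K)
    (hτ : Function.Injective τ) {N n m D : ℕ} (hn : 0 < n) {H : Type} [Fintype H]
    (σ : H → (K →+* K)) (hσ : ∀ h f, σ h (τ f) = τ f) (e : Fin N → K) (e' : K)
    (he : ∀ l, IbD τ D (e l)) (he' : IbD τ D e') (w : K) (f : Fin N → F[X])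
    (hw : w ^ n = ∑ l, τ (f l) * e l) (hf : ∀ l, (f l).natDegree ≤ m) (g : F[X])
    (hg : τ g = ∑ h, σ h (w * e')) : g.natDegree ≤ m + D + D := by
  have h0 : τ X ≠ 0 := (map_ne_zero_iff τ hτ).2 X_ne_zero
  apply Inf_deg τ hτ
  let _ : Algebra F[X] K := (Inf_iota τ).toAlgebra
  have halg : ∀ q : F[X], algebraMap F[X] K q = Inf_iota τ q := fun q => rfl
  have hel : ∀ l, IsIntegral F[X] ((τ X)⁻¹ ^ D * e l) := fun l => Inf_int τ h0 (he l)
  have hel' : IsIntegral F[X] ((τ X)⁻¹ ^ D * e') := Inf_int τ h0 he'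
  have ht : IsIntegral F[X] (τ X)⁻¹ := by
    have h1 : (τ X)⁻¹ = algebraMap F[X] K X := by
      rw [halg, Inf_iota, coe_eval₂RingHom, eval₂_X]
    rw [h1]
    exact isIntegral_algebraMap
  have hwi : IsIntegral F[X] ((τ X)⁻¹ ^ (m + D) * w) := by
    apply IsIntegral.of_pow hn
    obtain ⟨r, rfl⟩ : ∃ r, n = r + 1 := ⟨n - 1, by omega⟩
    have h1 : ((τ X)⁻¹ ^ (m + D) * w) ^ (r + 1) = ((τ X)⁻¹ ^ (m + D)) ^ r *
        ∑ l, algebraMap F[X] K (reflect m (f l)) * ((τ X)⁻¹ ^ D * e l) := by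
      rw [mul_pow, hw, pow_succ, mul_assoc, Finset.mul_sum]
      congr 1
      apply Finset.sum_congr rfl
      intro l _
      rw [halg, ← Inf_tau_mul τ h0 _ _ (hf l), pow_add]
      ring
    rw [h1]
    exact ((ht.pow _).pow _).mul (IsIntegral.sum _ fun l _ =>
      isIntegral_algebraMap.mul (hel l))
  have hσι : ∀ h q, σ h (Inf_iota τ q) = Inf_iota τ q := by
    intro h q
    have h1 : (σ h).comp (Inf_iota τ) = Inf_iota τ := by
      apply Polynomial.ringHom_ext
      · intro a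
        rw [RingHom.comp_apply, Inf_iota, coe_eval₂RingHom, eval₂_C, RingHom.comp_apply, hσ]
      · rw [RingHom.comp_apply, Inf_iota, coe_eval₂RingHom, eval₂_X, map_inv₀, hσ]
    exact RingHom.congr_fun h1 q
  have hy : (τ X)⁻¹ ^ (m + D + D) * τ g =
      ∑ h, σ h (((τ X)⁻¹ ^ (m + D) * w) * ((τ X)⁻¹ ^ D * e')) := by
    rw [hg, Finset.mul_sum]
    apply Finset.sum_congr rfl
    intro h _
    simp only [map_mul, map_pow, map_inv₀, hσ]
    ring
  rw [hy]
  refine IsIntegral.sum (R := F[X]) _ fun h _ => ?_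
  exact (hwi.mul hel').map ({ σ h with commutes' := fun q => hσι h q } : K →ₐ[F[X]] K)

end Pool.Agent.AB3
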