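import Pool.Agent.Lib.MP_5de024_nt.S.CertX.Def
import Pool.Agent.Lib.MP_5de024_nt.S.CertX.Inf

/-!
# certificates: the uniform degree bound (project AB3, piece CERT, CA2)
-/

set_option autoImplicit false
set_option linter.unusedSectionVars false

namespace Pool.Agent.AB3

open Pool.Agent.AB Polynomial

/-- the dual basis -/
theorem Deg_dual {k R H : Type} [Field k] [CommRing R] [Algebra k[X] R] [Group H] [Finite H]
    [Fintype H] (C : Cov k R H) {N : ℕ} (b : Module.Basis (Fin N) k[X] R) :
    ∃ d : Fin N → R, ∀ (l : Fin N) (r : R),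
      algebraMap k[X] R (b.repr r l) = ∑ h : H, C.act h (d l * r) := by
  classical
  obtain ⟨m, x, y, hxy⟩ := C.coord
  refine ⟨fun l => ∑ i, b.repr (x i) l • y i, ?_⟩
  intro l r
  choose f hf using fun i => geoA_tr C (y i * r)
  have e1 : (∑ h : H, C.act h ((∑ i, b.repr (x i) l • y i) * r)) =
      ∑ i, algebraMap k[X] R (b.repr (x i) l * f i) := by
    have e2 : ∀ h : H, C.act h ((∑ i, b.repr (x i) l • y i) * r) =
        ∑ i, b.repr (x i) l • C.act h (y i * r) := by
      intro h
      rw [Finset.sum_mul, map_sum]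
      exact Finset.sum_congr rfl fun i _ => by rw [smul_mul_assoc, map_smul]
    rw [Finset.sum_congr rfl fun h _ => e2 h, Finset.sum_comm]
    refine Finset.sum_congr rfl fun i _ => ?_
    rw [← Finset.smul_sum, ← hf, Algebra.smul_def, map_mul]
  have e3 : b.repr r l = ∑ i, b.repr (x i) l * f i := by
    conv_lhs => rw [← geoA_exp C x y hxy r]
    rw [map_sum, Finsupp.finsetSum_apply]
    refine Finset.sum_congr rfl fun i _ => ?_
    rw [← hf, mul_comm, ← Algebra.smul_def, map_smul, Finsupp.smul_apply, smul_eq_mul,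
      mul_comm]
  rw [e1, ← map_sum, ← e3]

/-- the coordinates as traces, in the base change -/
theorem Deg_tr {k R H A : Type} [Field k] [CommRing R] [Algebra k[X] R] [Group H] [Finite H]
    [Fintype H] [CommRing A] (C : Cov k R H) {N : ℕ} (b : Module.Basis (Fin N) k[X] R)
    (d : Fin N → R)
    (hd : ∀ (l : Fin N) (r : R), algebraMap k[X] R (b.repr r l) = ∑ h : H, C.act h (d l * r))
    (φ : k[X] →+* A) (l : Fin N) (z : Bs φ R) :
    algebraMap A (Bs φ R) ((Bs.basis φ b).repr z l) =
      ∑ h : H, Bs.act φ C.act h (z * Bs.inR φ R (d l)) := by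
  induction z using Bs.induction with
  | h0 =>
    rw [map_zero, Finsupp.zero_apply, map_zero, zero_mul]
    exact (Finset.sum_eq_zero fun h _ => map_zero _).symm
  | h1 a r =>
    rw [← Algebra.smul_def, map_smul, Finsupp.smul_apply, Bs.repr_inR, smul_eq_mul, map_mul,
      ← Bs.inR_alg, hd, map_sum, Finset.mul_sum]
    refine Finset.sum_congr rfl fun h _ => ?_
    rw [Algebra.smul_def, mul_assoc, map_mul (Bs.act φ C.act h), Bs.act_alg,
      ← map_mul (Bs.inR φ R) r, Bs.act_inR, mul_comm r]
  | h2 x y hx hy =>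
    rw [map_add, Finsupp.add_apply, map_add, hx, hy, ← Finset.sum_add_distrib]
    exact Finset.sum_congr rfl fun h _ => by rw [add_mul, map_add]

/-- the degree of a substitution -/
theorem Deg_evg {k F : Type} [Field k] [Field F] [Algebra k F] (g : F[X]) (f : k[X]) :
    (evg k F g f).natDegree ≤ f.natDegree * g.natDegree := by
  have h1 : evg k F g f = (f.map (algebraMap k F)).comp g := by
    change Polynomial.eval₂ (Polynomial.C.comp (algebraMap k F)) g f = _
    rw [Polynomial.comp, Polynomial.eval₂_map]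
  rw [h1, natDegree_comp]
  exact Nat.mul_le_mul_right _ natDegree_map_le

/-- integrality, uniformly -/
theorem Deg_int {k R H : Type} [Field k] [CommRing R] [Algebra k[X] R] [Group H] [Finite H]
    (C : Cov k R H) (P : ℕ) (r : R) : ∃ D : ℕ, ∀ (F : Type) [Field F] [Algebra k F] (g : F[X]),
      g.natDegree ≤ P → ∃ q : F[X][X], q.Monic ∧
        q.eval₂ (algebraMap F[X] (Fam k F g R)) (Bs.inR (evg k F g) R r) = 0 ∧
        ∀ j, (q.coeff j).natDegree ≤ D := by
  have hfin := cov_finite C
  obtain ⟨q, hq, hq0⟩ := (Algebra.IsIntegral.of_finite k[X] R).isIntegral r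
  refine ⟨(∑ j ∈ q.support, (q.coeff j).natDegree) * P, ?_⟩
  intro F _ _ g hg
  refine ⟨q.map (evg k F g), hq.map _, ?_, ?_⟩
  · rw [eval₂_map]
    have h1 : (algebraMap F[X] (Fam k F g R)).comp (evg k F g) =
        (Bs.inR (evg k F g) R).comp (algebraMap k[X] R) :=
      RingHom.ext fun f => (Bs.inR_alg (evg k F g) R f).symm
    rw [h1, ← hom_eval₂, hq0, map_zero]
  · intro j
    rw [coeff_map]
    refine (Deg_evg g (q.coeff j)).trans (Nat.mul_le_mul ?_ hg)
    by_cases hj : j ∈ q.support
    · exact Finset.single_le_sum (f := fun j => (q.coeff j).natDegree)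
        (fun i _ => Nat.zero_le _) hj
    · rw [notMem_support_iff.1 hj, natDegree_zero]
      exact Nat.zero_le _

/-- uniform bound for the degrees of the coordinates of an `n`-th root -/
theorem cert_deg {k R H : Type} [Field k] [CommRing R] [Algebra k[X] R] [Group H] [Finite H]
    (C : Cov k R H) {N : ℕ} (b : Module.Basis (Fin N) k[X] R) (n m P : ℕ) (hn : 0 < n) :
    ∃ Bd : ℕ, ∀ (F : Type) [Field F] [Algebra k F] (g : F[X]), g.natDegree ≤ P →
      IsDomain (Fam k F g R) → ∀ w : Fam k F g R,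
        (∀ l, ((Bs.basis (evg k F g) b).repr (w ^ n) l).natDegree ≤ m) →
        ∀ l, ((Bs.basis (evg k F g) b).repr w l).natDegree ≤ Bd := by
  classical
  have _ := Fintype.ofFinite H
  obtain ⟨d, hd⟩ := Deg_dual C b
  choose Db hDb using fun l => Deg_int C P (b l)
  choose Dd hDd using fun l => Deg_int C P (d l)
  obtain ⟨D, hD⟩ : ∃ D, D = ∑ l, (Db l + Dd l) := ⟨_, rfl⟩
  have hle : ∀ l, Db l ≤ D ∧ Dd l ≤ D := by
    intro l
    have h1 := Finset.single_le_sum (f := fun l => Db l + Dd l)
      (fun i _ => Nat.zero_le _) (Finset.mem_univ l)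
    rw [← hD] at h1
    constructor
    · exact (Nat.le_add_right _ _).trans h1
    · exact (Nat.le_add_left _ _).trans h1
  refine ⟨m + D + D, ?_⟩
  intro F _ _ g hg hdom w hw l
  obtain ⟨τ, hτ⟩ : ∃ τ : F[X] →+* FractionRing (Fam k F g R), τ =
      (algebraMap (Fam k F g R) (FractionRing (Fam k F g R))).comp
        (algebraMap F[X] (Fam k F g R)) := ⟨_, rfl⟩
  have hinj : Function.Injective (algebraMap (Fam k F g R) (FractionRing (Fam k F g R))) :=
    IsFractionRing.injective _ _
  have hτi : Function.Injective τ := by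
    rw [hτ]
    exact hinj.comp (bs_inj C (evg k F g))
  obtain ⟨σ, hσ⟩ : ∃ σ : H → (FractionRing (Fam k F g R) →+* FractionRing (Fam k F g R)),
      ∀ h z, σ h (algebraMap (Fam k F g R) (FractionRing (Fam k F g R)) z) =
        algebraMap (Fam k F g R) (FractionRing (Fam k F g R))
          (Bs.act (evg k F g) C.act h z) := by
    refine ⟨fun h => (IsFractionRing.ringEquivOfRingEquiv
      (Bs.act (evg k F g) C.act h : Fam k F g R ≃+* Fam k F g R) :
      FractionRing (Fam k F g R) ≃+* FractionRing (Fam k F g R)), fun h z => ?_⟩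
    exact IsFractionRing.ringEquivOfRingEquiv_algebraMap _ z
  have hint : ∀ (r : R) (E : ℕ), E ≤ D → (∃ q : F[X][X], q.Monic ∧
        q.eval₂ (algebraMap F[X] (Fam k F g R)) (Bs.inR (evg k F g) R r) = 0 ∧
        ∀ j, (q.coeff j).natDegree ≤ E) → IbD τ D
          (algebraMap (Fam k F g R) (FractionRing (Fam k F g R)) (Bs.inR (evg k F g) R r)) := by
    rintro r E hE ⟨q, h1, h2, h3⟩
    refine ⟨q, h1, ?_, fun j => (h3 j).trans hE⟩
    rw [hτ, ← hom_eval₂, h2, map_zero]
  refine inf_bound τ hτi hn σ ?_ (fun i => algebraMap (Fam k F g R)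
    (FractionRing (Fam k F g R)) (Bs.inR (evg k F g) R (b i)))
    (algebraMap (Fam k F g R) (FractionRing (Fam k F g R)) (Bs.inR (evg k F g) R (d l)))
    (fun i => hint _ _ (hle i).1 (hDb i F g hg)) (hint _ _ (hle l).2 (hDd l F g hg))
    (algebraMap (Fam k F g R) (FractionRing (Fam k F g R)) w)
    (fun i => (Bs.basis (evg k F g) b).repr (w ^ n) i) ?_ hw _ ?_
  · intro h f
    rw [hτ, RingHom.comp_apply, hσ, Bs.act_alg]
  · rw [← map_pow]
    conv_lhs => rw [← (Bs.basis (evg k F g) b).sum_repr (w ^ n)]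
    rw [map_sum]
    refine Finset.sum_congr rfl fun i _ => ?_
    rw [Algebra.smul_def, map_mul, Bs.basis_apply, hτ, RingHom.comp_apply]
  · rw [hτ, RingHom.comp_apply, Deg_tr C b d hd (evg k F g) l w, map_sum]
    refine Finset.sum_congr rfl fun h _ => ?_
    rw [← map_mul, hσ]

end Pool.Agent.AB3
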