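import Pool.Agent.Lib.MP_5de024_nt.S.CertX.Sol

/-!
# certificates: lifting of elements to subalgebras (project AB3, piece CERT)
-/

set_option autoImplicit false
set_option linter.unusedSectionVars false

namespace Pool.Agent.AB3

open Pool.Agent.AB Polynomial

section co

variable {k R L : Type} [Field k] [CommRing R] [Algebra k[X] R] [Field L] [Algebra k L]

/-- the coefficients of the coordinates -/
noncomputable def coS {N : ℕ} (b : Module.Basis (Fin N) k[X] R) (g : L[X])
    (z : Bs (evR k L g) R) : Set L :=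
  Set.range fun i : Fin N × ℕ => ((Bs.basis (evR k L g) b).repr z i.1).coeff i.2

theorem coS_finite {N : ℕ} (b : Module.Basis (Fin N) k[X] R) (g : L[X])
    (z : Bs (evR k L g) R) : (coS b g z).Finite := by
  have h : coS b g z ⊆ insert 0 (⋃ i : Fin N,
      (((Bs.basis (evR k L g) b).repr z i).coeffs : Set L)) := by
    rintro x ⟨⟨i, j⟩, rfl⟩
    by_cases h0 : ((Bs.basis (evR k L g) b).repr z i).coeff j = 0
    · exact Or.inl h0
    · refine Or.inr (Set.mem_iUnion.mpr ⟨i, ?_⟩)
      exact Polynomial.coeff_mem_coeffs h0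
  refine Set.Finite.subset (Set.Finite.insert 0 (Set.finite_iUnion fun i => ?_)) h
  exact Finset.finite_toSet _

/-- elements whose coefficients lie in a subalgebra lift -/
theorem coS_lift {N : ℕ} (b : Module.Basis (Fin N) k[X] R) (D : Subalgebra k L) (gD : D[X])
    (g : L[X]) (hg : gD.map (D.val : D →+* L) = g) (z : Bs (evR k L g) R)
    (hz : coS b g z ⊆ D) : ∃ z' : Bs (evR k D gD) R, fmp D.val gD g hg z' = z := by
  apply fmp_lift b D.val gD g hg z
  intro i j
  have h : ((Bs.basis (evR k L g) b).repr z i).coeff j ∈ D := hz ⟨(i, j), rfl⟩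
  exact ⟨⟨_, h⟩, rfl⟩

end co

/-- the coordinates of the translates -/
theorem shR_repr {k R A : Type} [Field k] [CommRing R] [Algebra k[X] R] [CommRing A]
    [Algebra k A] {N : ℕ} (b : Module.Basis (Fin N) k[X] R) (g : A[X]) (d : A)
    (s : Bs (evR k A g) R →+* Bs (evR k A g) R) (hs : IsShR g d s) (z : Bs (evR k A g) R)
    (i : Fin N) : (Bs.basis (evR k A g) b).repr (s z) i =
      ((Bs.basis (evR k A g) b).repr z i).comp (X + C d) := by
  conv_lhs => rw [← (Bs.basis (evR k A g) b).sum_repr z]
  rw [map_sum]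
  have h : ∀ j, s ((Bs.basis (evR k A g) b).repr z j • (Bs.basis (evR k A g) b) j) =
      ((Bs.basis (evR k A g) b).repr z j).comp (X + C d) • (Bs.basis (evR k A g) b) j := by
    intro j
    rw [Algebra.smul_def, map_mul, hs.2, Bs.basis_apply, hs.1, Algebra.smul_def]
  rw [Finset.sum_congr rfl fun j _ => h j]
  exact congrFun ((Bs.basis (evR k A g) b).repr_sum_self
    (fun j => ((Bs.basis (evR k A g) b).repr z j).comp (X + C d))) i

theorem shR_ne {k R A : Type} [Field k] [CommRing R] [Algebra k[X] R] [CommRing A]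
    [Algebra k A] {N : ℕ} (b : Module.Basis (Fin N) k[X] R) (g : A[X]) (d : A)
    (s : Bs (evR k A g) R →+* Bs (evR k A g) R) (hs : IsShR g d s) (z : Bs (evR k A g) R)
    (hz : z ≠ 0) : s z ≠ 0 := by
  intro h
  apply hz
  apply (Bs.basis (evR k A g) b).repr.injective
  ext1 i
  have h1 := shR_repr b g d s hs z i
  rw [h, map_zero, Finsupp.zero_apply] at h1
  rw [map_zero, Finsupp.zero_apply]
  have h2 : (((Bs.basis (evR k A g) b).repr z i).comp (X + C d)).comp (X - C d) =
      (Bs.basis (evR k A g) b).repr z i := by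
    rw [comp_assoc, add_comp, X_comp, C_comp, sub_add_cancel, comp_X]
  rw [← h2, ← h1, zero_comp]

end Pool.Agent.AB3
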