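import Pool.Agent.Lib.MP_5de024_nt.S.CertX.Def

/-!
# certificates: elimination (project AB3, piece CERT, CC)
-/

set_option autoImplicit false
set_option linter.unusedSectionVars false

namespace Pool.Agent.AB3

open Pool.Agent.AB Polynomial

section nst

variable {k R : Type} [Field k] [CommRing R] [Algebra k[X] R]

/-- the variables -/
abbrev NstV (N Bd : ℕ) : Type := Fin N × Fin (Bd + 1)

/-- the element with the coefficients `θ` -/
noncomputable def Nst_w {N Bd : ℕ} {A : Type} [CommRing A] [Algebra k A] (g : A[X])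
    (b : Module.Basis (Fin N) k[X] R) (θ : NstV N Bd → A) : Bs (evR k A g) R :=
  ∑ l : Fin N, algebraMap A[X] (Bs (evR k A g) R)
    (∑ j : Fin (Bd + 1), Polynomial.C (θ (l, j)) * X ^ (j : ℕ)) * Bs.inR (evR k A g) R (b l)

theorem Nst_w_map {N Bd : ℕ} {A A' : Type} [CommRing A] [Algebra k A] [CommRing A']
    [Algebra k A'] (ψ : A →ₐ[k] A') (g : A[X]) (g' : A'[X])
    (hg : g.map (ψ : A →+* A') = g') (b : Module.Basis (Fin N) k[X] R) (θ : NstV N Bd → A) :
    fmp ψ g g' hg (Nst_w g b θ) = Nst_w g' b (fun x => ψ (θ x)) := by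
  rw [Nst_w, Nst_w, map_sum]
  refine Finset.sum_congr rfl fun l _ => ?_
  rw [map_mul, fmp_alg, fmp_inR, Polynomial.map_sum]
  congr 2
  refine Finset.sum_congr rfl fun j _ => ?_
  rw [Polynomial.map_mul, Polynomial.map_pow, map_C, map_X]
  rfl

theorem Nst_w_repr {N Bd : ℕ} {A : Type} [CommRing A] [Algebra k A] (g : A[X])
    (b : Module.Basis (Fin N) k[X] R) (θ : NstV N Bd → A) (l : Fin N) :
    (Bs.basis (evR k A g) b).repr (Nst_w g b θ) l =
      ∑ j : Fin (Bd + 1), Polynomial.C (θ (l, j)) * X ^ (j : ℕ) := by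
  have h1 : Nst_w g b θ = ∑ l : Fin N,
      (∑ j : Fin (Bd + 1), Polynomial.C (θ (l, j)) * X ^ (j : ℕ)) •
        Bs.basis (evR k A g) b l := by
    rw [Nst_w]
    refine Finset.sum_congr rfl fun l _ => ?_
    rw [Algebra.smul_def, Bs.basis_apply]
  rw [h1, Module.Basis.repr_sum_self]

theorem Nst_w_deg {N Bd : ℕ} {A : Type} [CommRing A] [Algebra k A] (g : A[X])
    (b : Module.Basis (Fin N) k[X] R) (θ : NstV N Bd → A) (l : Fin N) :
    ((Bs.basis (evR k A g) b).repr (Nst_w g b θ) l).natDegree ≤ Bd := by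
  rw [Nst_w_repr]
  refine natDegree_sum_le_of_forall_le _ _ fun j _ => ?_
  exact (natDegree_C_mul_X_pow_le _ _).trans (by have := j.2; omega)

theorem Nst_w_eq {N Bd : ℕ} {A : Type} [CommRing A] [Algebra k A] (g : A[X])
    (b : Module.Basis (Fin N) k[X] R) (w : Bs (evR k A g) R)
    (hw : ∀ l, ((Bs.basis (evR k A g) b).repr w l).natDegree ≤ Bd) :
    Nst_w (Bd := Bd) g b (fun x => ((Bs.basis (evR k A g) b).repr w x.1).coeff x.2) = w := by
  apply (Bs.basis (evR k A g) b).repr.injective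
  ext1 l
  rw [Nst_w_repr]
  conv_rhs => rw [((Bs.basis (evR k A g) b).repr w l).as_sum_range_C_mul_X_pow' 
    (Nat.lt_succ_of_le (hw l))]
  exact Fin.sum_univ_eq_sum_range (fun j => Polynomial.C
    (((Bs.basis (evR k A g) b).repr w l).coeff j) * X ^ j) (Bd + 1)

/-- the constants -/
noncomputable def Nst_c (k : Type) [Field k] (V A : Type) [CommRing A] [Algebra k A] :
    A →ₐ[k] MvPolynomial V A :=
  { (MvPolynomial.C : A →+* MvPolynomial V A) with
    commutes' := fun r => rfl }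

/-- the coefficients of the equation -/
noncomputable def Nst_Q {N : ℕ} (n Bd : ℕ) {A : Type} [CommRing A] [Algebra k A] (g : A[X])
    (b : Module.Basis (Fin N) k[X] R) (z : Bs (evR k A g) R) (x : Fin N × ℕ) :
    MvPolynomial (NstV N Bd) A :=
  ((Bs.basis (evR k (MvPolynomial (NstV N Bd) A)
    (g.map (Nst_c k (NstV N Bd) A : A →+* MvPolynomial (NstV N Bd) A))) b).repr
    (fmp (Nst_c k (NstV N Bd) A) g _ rfl z -
      (Nst_w (g.map (Nst_c k (NstV N Bd) A : A →+* MvPolynomial (NstV N Bd) A)) b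
        MvPolynomial.X) ^ n) x.1).coeff x.2

theorem Nst_key {N : ℕ} (n Bd : ℕ) {A B : Type} [CommRing A] [Algebra k A] [CommRing B]
    [Algebra k B] (Φ : MvPolynomial (NstV N Bd) A →ₐ[k] B) (ψ : A →ₐ[k] B)
    (hΦ : ∀ a, Φ (MvPolynomial.C a) = ψ a) (g : A[X]) (g' : B[X])
    (hg : g.map (ψ : A →+* B) = g') (b : Module.Basis (Fin N) k[X] R) (z : Bs (evR k A g) R)
    (x : Fin N × ℕ) : Φ (Nst_Q n Bd g b z x) =
      ((Bs.basis (evR k B g') b).repr (fmp ψ g g' hg z -
        (Nst_w g' b (fun x => Φ (MvPolynomial.X x))) ^ n) x.1).coeff x.2 := by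
  have hgΦ : (g.map (Nst_c k (NstV N Bd) A : A →+* MvPolynomial (NstV N Bd) A)).map
      (Φ : MvPolynomial (NstV N Bd) A →+* B) = g' := by
    rw [← hg, Polynomial.map_map]
    congr 1
    ext a
    exact hΦ a
  have h1 : fmp ψ g g' hg z - (Nst_w g' b (fun x => Φ (MvPolynomial.X x))) ^ n =
      fmp Φ (g.map (Nst_c k (NstV N Bd) A : A →+* MvPolynomial (NstV N Bd) A)) g' hgΦ
        (fmp (Nst_c k (NstV N Bd) A) g _ rfl z -
      (Nst_w (g.map (Nst_c k (NstV N Bd) A : A →+* MvPolynomial (NstV N Bd) A)) b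
        MvPolynomial.X) ^ n) := by
    rw [map_sub, map_pow, Nst_w_map, fmp_comp (Nst_c k (NstV N Bd) A) Φ ψ hΦ g _ g' rfl hgΦ hg]
  rw [h1, fmp_repr, coeff_map]
  rfl

end nst

/-- if the element `z` has no `n`-th root of bounded degree over the algebraic closure then the
same holds for all specialisations of a large subalgebra -/
theorem cert_nul {k R H : Type} [Field k] [CommRing R] [Algebra k[X] R] [Group H] [Finite H]
    (C : Cov k R H) {N : ℕ} (b : Module.Basis (Fin N) k[X] R) (n Bd : ℕ) (L La : Type) [Field L]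
    [Algebra k L] [Field La] [Algebra k La] [Algebra L La] [IsScalarTower k L La]
    [IsAlgClosed La] [Algebra.IsAlgebraic L La] (g : L[X]) (g' : La[X])
    (hg : g.map (IsScalarTower.toAlgHom k L La : L →+* La) = g') (z : Bs (evR k L g) R)
    (hz : ∀ w : Bs (evR k La g') R,
      (∀ l, ((Bs.basis (evR k La g') b).repr w l).natDegree ≤ Bd) →
      fmp (IsScalarTower.toAlgHom k L La) g g' hg z ≠ w ^ n) :
    ∃ S : Set L, S.Finite ∧ ∀ D : Subalgebra k L, S ⊆ D → ∀ (gD : D[X])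
      (hgD : gD.map (D.val : D →+* L) = g) (zD : Bs (evR k D gD) R),
      fmp D.val gD g hgD zD = z → ∀ (F : Type) [Field F] [Algebra k F] (φ : D →ₐ[k] F)
        (gF : F[X]) (hgF : gD.map (φ : D →+* F) = gF) (w : Bs (evR k F gF) R),
        (∀ l, ((Bs.basis (evR k F gF) b).repr w l).natDegree ≤ Bd) →
        fmp φ gD gF hgF zD ≠ w ^ n := by
  classical
  -- the ideal is trivial
  have h1 : Ideal.span (Set.range (Nst_Q n Bd g b z)) = ⊤ := by
    by_contra hcon
    obtain ⟨M, hM, hle⟩ := Ideal.exists_le_maximal _ hcon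
    let _ : Field (MvPolynomial (NstV N Bd) L ⧸ M) := Ideal.Quotient.field M
    have hfin : Module.Finite L (MvPolynomial (NstV N Bd) L ⧸ M) :=
      finite_of_finite_type_of_isJacobsonRing L (MvPolynomial (NstV N Bd) L ⧸ M)
    have halg : Algebra.IsAlgebraic L (MvPolynomial (NstV N Bd) L ⧸ M) := inferInstance
    let ι : (MvPolynomial (NstV N Bd) L ⧸ M) →ₐ[L] La := IsAlgClosed.lift
    obtain ⟨Φ, hΦ⟩ : ∃ Φ : MvPolynomial (NstV N Bd) L →ₐ[k] La,
      Φ = (ι.comp (Ideal.Quotient.mkₐ L M)).restrictScalars k := ⟨_, rfl⟩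
    have hΦC : ∀ a, Φ (MvPolynomial.C a) = IsScalarTower.toAlgHom k L La a := by
      intro a
      rw [hΦ]
      exact (ι.comp (Ideal.Quotient.mkₐ L M)).commutes a
    have hker : ∀ q ∈ M, Φ q = 0 := by
      intro q hq
      rw [hΦ]
      change ι (Ideal.Quotient.mk M q) = 0
      rw [Ideal.Quotient.eq_zero_iff_mem.2 hq, map_zero]
    refine hz (Nst_w g' b (fun x => Φ (MvPolynomial.X x))) (Nst_w_deg g' b _) ?_
    rw [← sub_eq_zero]
    apply (Bs.basis (evR k La g') b).repr.injective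
    rw [map_zero]
    ext1 l
    ext c
    have h2 := Nst_key n Bd Φ (IsScalarTower.toAlgHom k L La) hΦC g g' hg b z (l, c)
    rw [hker _ (hle (Ideal.subset_span ⟨(l, c), rfl⟩))] at h2
    rw [← h2]
    rfl
  rw [Ideal.eq_top_iff_one, Ideal.span, Finsupp.mem_span_range_iff_exists_finsupp] at h1
  obtain ⟨c, hc⟩ := h1
  refine ⟨(c.support.biUnion fun x => (c x).coeffs : Finset L), Finset.finite_toSet _, ?_⟩
  intro D hD gD hgD zD hzD F _ _ φ gF hgF w hw hwn
  have hlift : ∀ x ∈ c.support, ∃ q : MvPolynomial (NstV N Bd) D,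
      MvPolynomial.map (D.val : D →+* L) q = c x := by
    intro x hx
    have h2 : c x ∈ Set.range (MvPolynomial.map (σ := NstV N Bd) (D.val : D →+* L)) := by
      rw [MvPolynomial.mem_range_map_iff_coeffs_subset]
      intro a ha
      have h3 : a ∈ D := hD (Finset.mem_coe.2 (Finset.mem_biUnion.2 ⟨x, hx, ha⟩))
      exact ⟨⟨a, h3⟩, rfl⟩
    exact h2
  choose! cD hcD using hlift
  obtain ⟨Ψ, hΨ⟩ : ∃ Ψ : MvPolynomial (NstV N Bd) D →ₐ[k] MvPolynomial (NstV N Bd) L,
    Ψ = MvPolynomial.mapAlgHom D.val := ⟨_, rfl⟩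
  have hΨm : ∀ q, Ψ q = MvPolynomial.map (D.val : D →+* L) q := by
    intro q
    rw [hΨ]
    rfl
  have hgΨ : gD.map (((Nst_c k (NstV N Bd) L).comp D.val : D →ₐ[k] _) :
      D →+* MvPolynomial (NstV N Bd) L) =
      g.map (Nst_c k (NstV N Bd) L : L →+* MvPolynomial (NstV N Bd) L) := by
    rw [← hgD, Polynomial.map_map]
    rfl
  have hQ : ∀ x, Ψ (Nst_Q n Bd gD b zD x) = Nst_Q n Bd g b z x := by
    intro x
    rw [Nst_key n Bd Ψ ((Nst_c k (NstV N Bd) L).comp D.val) (by
      intro a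
      rw [hΨm, MvPolynomial.map_C]
      rfl) gD _ hgΨ b zD x, Nst_Q, ← fmp_comp D.val (Nst_c k (NstV N Bd) L)
      ((Nst_c k (NstV N Bd) L).comp D.val) (fun a => rfl) gD g _ hgD rfl hgΨ zD, hzD]
    have h3 : (fun x : NstV N Bd => Ψ (MvPolynomial.X x)) = MvPolynomial.X := by
      funext v
      rw [hΨm, MvPolynomial.map_X]
    rw [h3]
  have hone : ∑ x ∈ c.support, cD x * Nst_Q n Bd gD b zD x = 1 := by
    have hinj : Function.Injective (MvPolynomial.map (σ := NstV N Bd) (D.val : D →+* L)) :=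
      MvPolynomial.map_injective _ Subtype.val_injective
    apply hinj
    rw [map_sum, map_one, ← hc, Finsupp.sum]
    refine Finset.sum_congr rfl fun x hx => ?_
    rw [map_mul, hcD x hx, ← hΨm, hQ, smul_eq_mul]
  -- the specialisation
  obtain ⟨Φ, hΦ⟩ : ∃ Φ : MvPolynomial (NstV N Bd) D →ₐ[k] F,
    Φ = { MvPolynomial.eval₂Hom (φ : D →+* F) (fun v : NstV N Bd =>
      ((Bs.basis (evR k F gF) b).repr w v.1).coeff v.2) with
      commutes' := fun r => by
        change MvPolynomial.eval₂Hom (φ : D →+* F) _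
          (MvPolynomial.C (algebraMap k D r)) = algebraMap k F r
        rw [MvPolynomial.eval₂Hom_C]
        exact φ.commutes r } := ⟨_, rfl⟩
  have hΦC : ∀ a, Φ (MvPolynomial.C a) = φ a := by
    intro a
    rw [hΦ]
    exact MvPolynomial.eval₂Hom_C _ _ a
  have hΦX : (fun v : NstV N Bd => Φ (MvPolynomial.X v)) =
      fun v => ((Bs.basis (evR k F gF) b).repr w v.1).coeff v.2 := by
    funext v
    rw [hΦ]
    exact MvPolynomial.eval₂Hom_X' _ _ v
  have hzero : ∀ x, Φ (Nst_Q n Bd gD b zD x) = 0 := by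
    intro x
    rw [Nst_key n Bd Φ φ hΦC gD gF hgF b zD x, hΦX, Nst_w_eq gF b w hw, hwn, sub_self,
      map_zero]
    rfl
  have h4 := congrArg Φ hone
  rw [map_sum, map_one, Finset.sum_eq_zero] at h4
  · exact zero_ne_one h4
  · intro x _
    rw [map_mul, hzero, mul_zero]

end Pool.Agent.AB3
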