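import Pool.Agent.Lib.MP_5de024_nt.S.CertX.Deg
import Pool.Agent.Lib.MP_5de024_nt.S.CertX.Clo
import Pool.Agent.Lib.MP_5de024_nt.S.CertX.Nst

/-!
# certificates: no solutions for specialisations (project AB3, piece CERT, CD)
-/

set_option autoImplicit false
set_option linter.unusedSectionVars false

namespace Pool.Agent.AB3

open Pool.Agent.AB Polynomial

/-- the degree of the polynomial of the family -/
theorem Sol_deg {A : Type} [CommRing A] (P : ℕ) (hP : 0 < P) (b b' : A) :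
    (gR A P b b').natDegree ≤ P := by
  unfold gR
  refine (natDegree_C_mul_le _ _).trans ?_
  refine (natDegree_sub_le _ _).trans (max_le ?_ ?_)
  · exact natDegree_X_le.trans hP
  · exact natDegree_C_mul_X_pow_le _ _

/-- a bound for the degrees of the coordinates -/
theorem Sol_bound {A : Type} [CommRing A] {N : ℕ} (f : Fin N → A[X]) :
    ∃ m : ℕ, ∀ l, (f l).natDegree ≤ m :=
  ⟨Finset.univ.sup fun l => (f l).natDegree, fun l =>
    Finset.le_sup (f := fun l => (f l).natDegree) (Finset.mem_univ l)⟩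

/-- an element without `n`-th roots up to constants has no `n`-th roots up to constants in all
specialisations of a large subalgebra -/
theorem cert_sol (p : ℕ) [Fact p.Prime] {k R H : Type} [Field k] [CharP k p] [CommRing R]
    [Algebra k[X] R] [Group H] [Finite H] (C : Cov k R H) (n r : ℕ) (hn : n.Coprime p)
    (hn0 : 0 < n) (hNL : NL p k R) (hζ : ∃ ζ : k, IsPrimitiveRoot ζ n)
    (hr : Nat.card {a : k // a ^ p ^ (r + 1) = a} = p ^ (r + 1))
    (L : Type) [Field L] [Algebra k L] (β : L) (hβ : β ≠ 0)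
    (z : Bs (evR k L (gR L (p ^ (r + 1)) β β⁻¹)) R)
    (hz : ∀ (e : ℕ) (c : L) (w : Bs (evR k L (gR L (p ^ (r + 1)) β β⁻¹)) R), c ≠ 0 →
      z ^ p ^ e ≠ algebraMap L[X] (Bs (evR k L (gR L (p ^ (r + 1)) β β⁻¹)) R)
        (Polynomial.C c) * w ^ n) :
    ∃ S : Set L, S.Finite ∧ ∀ D : Subalgebra k L, S ⊆ D → ∀ (b b' : D) (hb : (b : L) = β)
      (hb' : (b' : L) = β⁻¹)
      (hgD : (gR D (p ^ (r + 1)) b b').map (D.val : D →+* L) = gR L (p ^ (r + 1)) β β⁻¹)
      (zD : Bs (evR k D (gR D (p ^ (r + 1)) b b')) R), fmp D.val _ _ hgD zD = z →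
      ∀ (F : Type) [Field F] [Algebra k F] (φ : D →ₐ[k] F)
        (hgF : (gR D (p ^ (r + 1)) b b').map (φ : D →+* F) = gR F (p ^ (r + 1)) (φ b) (φ b)⁻¹)
        (c : F) (w : Bs (evR k F (gR F (p ^ (r + 1)) (φ b) (φ b)⁻¹)) R), c ≠ 0 →
        fmp φ _ _ hgF zD ≠ algebraMap F[X] (Bs (evR k F (gR F (p ^ (r + 1)) (φ b) (φ b)⁻¹)) R)
          (Polynomial.C c) * w ^ n := by
  obtain ⟨B⟩ := cov_basis C
  have hP : 0 < p ^ (r + 1) := pow_pos (Fact.out : p.Prime).pos _
  obtain ⟨m, hm⟩ := Sol_bound fun l =>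
    (Bs.basis (evR k L (gR L (p ^ (r + 1)) β β⁻¹)) B).repr z l
  obtain ⟨Bd, hBd⟩ := cert_deg C B n m (p ^ (r + 1)) hn0
  have hβa : algebraMap L (AlgebraicClosure L) β ≠ 0 := (_root_.map_ne_zero _).2 hβ
  have hgL : (gR L (p ^ (r + 1)) β β⁻¹).map
      (IsScalarTower.toAlgHom k L (AlgebraicClosure L) : L →+* AlgebraicClosure L) =
      gR (AlgebraicClosure L) (p ^ (r + 1)) (algebraMap L (AlgebraicClosure L) β)
        (algebraMap L (AlgebraicClosure L) β)⁻¹ := by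
    rw [gR_map]
    change gR (AlgebraicClosure L) (p ^ (r + 1)) (algebraMap L (AlgebraicClosure L) β)
      (algebraMap L (AlgebraicClosure L) β⁻¹) = _
    rw [map_inv₀]
  have hdom : IsDomain (Bs (evR k (AlgebraicClosure L) (gR (AlgebraicClosure L) (p ^ (r + 1))
      (algebraMap L (AlgebraicClosure L) β) (algebraMap L (AlgebraicClosure L) β)⁻¹)) R) :=
    fam_gb_domain p C hNL (r + 1) r.succ_pos hr _ hβa
  obtain ⟨S, hS, hSD⟩ := cert_nul C B n Bd L (AlgebraicClosure L) _ _ hgL z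
    (fun w _ => cert_clo p C n hn hn0 hζ L (AlgebraicClosure L) _ _ hgL hdom z hz w)
  refine ⟨S, hS, fun D hD b b' hb hb' hgD zD hzD F _ _ φ hgF c w hc heq => ?_⟩
  -- the algebraic closure of `F`
  obtain ⟨ι, hι⟩ : ∃ ι : F →ₐ[k] AlgebraicClosure F, ι = IsScalarTower.toAlgHom k F _ :=
    ⟨_, rfl⟩
  have hbb : b * b' = 1 := by
    apply Subtype.ext
    change (b : L) * (b' : L) = 1
    rw [hb, hb', mul_inv_cancel₀ hβ]
  have hφb : φ b ≠ 0 := by
    intro h
    have h1 := congrArg φ hbb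
    rw [map_mul, h, zero_mul, map_one] at h1
    exact zero_ne_one h1
  have hιb : ι (φ b) ≠ 0 := (_root_.map_ne_zero ι).2 hφb
  obtain ⟨c1, hc1⟩ := IsAlgClosed.exists_pow_nat_eq (ι c) hn0
  have hgFa : (gR F (p ^ (r + 1)) (φ b) (φ b)⁻¹).map (ι : F →+* AlgebraicClosure F) =
      gR (AlgebraicClosure F) (p ^ (r + 1)) (ι (φ b)) (ι (φ b))⁻¹ := by
    rw [gR_map, RingHom.coe_coe, map_inv₀]
  have hgDa : (gR D (p ^ (r + 1)) b b').map
      ((ι.comp φ : D →ₐ[k] AlgebraicClosure F) : D →+* AlgebraicClosure F) =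
      gR (AlgebraicClosure F) (p ^ (r + 1)) (ι (φ b)) (ι (φ b))⁻¹ := by
    rw [← hgFa, ← hgF, Polynomial.map_map]
    rfl
  have hw1 : fmp (ι.comp φ) _ _ hgDa zD =
      (algebraMap (AlgebraicClosure F)[X] (Bs (evR k (AlgebraicClosure F)
        (gR (AlgebraicClosure F) (p ^ (r + 1)) (ι (φ b)) (ι (φ b))⁻¹)) R)
        (Polynomial.C c1) * fmp ι _ _ hgFa w) ^ n := by
    rw [← fmp_comp φ ι (ι.comp φ) (fun _ => rfl) _ _ _ hgF hgFa hgDa zD, heq, map_mul, map_pow,
      fmp_alg, mul_pow, ← map_pow (algebraMap _ _), ← map_pow Polynomial.C, hc1, map_C]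
    rfl
  refine hSD D hD _ hgD zD hzD (AlgebraicClosure F) (ι.comp φ) _ hgDa _ ?_ hw1
  have hdF : IsDomain (Fam k (AlgebraicClosure F) (gR (AlgebraicClosure F) (p ^ (r + 1))
      (ι (φ b)) (ι (φ b))⁻¹) R) :=
    fam_gb_domain p C hNL (r + 1) r.succ_pos hr _ hιb
  refine hBd (AlgebraicClosure F) _ (Sol_deg _ hP _ _) hdF _ fun l => ?_
  have h1 : ((Bs.basis (evR k (AlgebraicClosure F) (gR (AlgebraicClosure F) (p ^ (r + 1))
      (ι (φ b)) (ι (φ b))⁻¹)) B).repr (fmp (ι.comp φ) _ _ hgDa zD) l).natDegree ≤ m := by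
    rw [fmp_repr]
    refine natDegree_map_le.trans ?_
    have h2 := hm l
    rw [← hzD, fmp_repr, Polynomial.natDegree_map_eq_of_injective] at h2
    · exact h2
    · exact Subtype.val_injective
  rw [hw1] at h1
  exact h1

end Pool.Agent.AB3
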